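import Pool.Agent.helper53.ORT.Spec

/-!
# Project ort, row E1 (many blocks)
-/

set_option autoImplicit false

namespace Pool.Agent.ORT

open Module Pool.Agent.GS

/-- The first blocks and the last block. -/
def E1_equiv (l s : ℕ) : (Fin l × Fin s) ⊕ Fin s ≃ Fin (l + 1) × Fin s :=
  ((Equiv.sumCongr (Equiv.refl (Fin l × Fin s)) (Equiv.uniqueProd (Fin s) (Fin 1)).symm).trans
    (Equiv.sumProdDistrib (Fin l) (Fin 1) (Fin s)).symm).trans
    (Equiv.prodCongr finSumFinEquiv (Equiv.refl (Fin s)))

/-- **E1**. -/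
theorem E1 : E1_stmt := by
  intro F V _ _ _ B hB y s l hBk
  induction l with
  | zero =>
    intro a ha _
    have h : fl B a = 1 := by
      ext x
      rw [fl_apply ha, Equiv.Perm.one_apply, Finset.univ_eq_empty, Finset.sum_empty, sub_zero]
    rw [h]
    exact Gn.one _
  | succ l ih =>
    intro a ha hn
    have e1 : (fun i => a (E1_equiv l s i)) =
        Sum.elim (fun p => a (E1_equiv l s (Sum.inl p))) (fun j => a (E1_equiv l s (Sum.inr j))) := by
      funext i
      rcases i with i | i <;> rfl
    have h0 : Og B (fun i => a (E1_equiv l s i)) := ha.comp (E1_equiv l s).injective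
    have h1 : Og B (Sum.elim (fun p => a (E1_equiv l s (Sum.inl p)))
        (fun j => a (E1_equiv l s (Sum.inr j)))) := by
      rw [← e1]
      exact h0
    rw [← fl_equiv ha (E1_equiv l s), e1, fl_sum h1]
    have h2 : Gn B y 2 (fl B fun j => a (E1_equiv l s (Sum.inr j))) := by
      refine hBk _ h1.inr ?_
      have h3 : ∏ i, B (a (E1_equiv l s (Sum.inr i))) (a (E1_equiv l s (Sum.inr i))) = 1 :=
        Finset.prod_eq_one fun i _ => hn _
      rw [h3]
      exact ⟨1, by rw [mul_one]⟩
    exact (ih _ h1.inl fun i => hn _).mul h2 (fl_mem hB _).1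

end Pool.Agent.ORT
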